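import Pool.Agent.Run7.h886.TG.WA
import Pool.Agent.Run7.h56.JP.JMODEL

/-!
# Weil estimates for the joint curves of factorisations

Project JPL (helper784), piece JW, helper518; adapted from the proof of W of helper886
(Run7/h886/TG/{WA,W}.lean).
-/

set_option autoImplicit false
set_option linter.all false

open Polynomial
open scoped Classical

namespace Run7.h518.JP

open Run7.h886.TG (abs_finsum_le ncard_eq_finsum mod_bound G0 G0_eval G0_bound)
open Run7.h784.TG (FacR mdl evt nv zp Fm)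
open Run7.h784.JP (JF JFull JMd P_JNSQ P_JNSQ2 P_JW dB)
open Run7.h875.TS (chi cd IsPC GSq ev2)
open Run7.h437.TS (abs_chi_le chi_mul chi_sq one_le_sqrt_cd ev2_C card_y_le card_zero_le)
open Pool.Agent.N352.PJ (IsGen Crd dsc)

theorem prod_finsum {ι : Type} [Fintype ι] {α : ι → Type} {s : ∀ i, Set (α i)}
    (hs : ∀ i, (s i).Finite) (ψ : ∀ i, α i → ℝ) :
    ∏ i, ∑ᶠ a ∈ s i, ψ i a = ∑ᶠ a ∈ {a : ∀ i, α i | ∀ i, a i ∈ s i}, ∏ i, ψ i (a i) := by
  have h1 : {a : ∀ i, α i | ∀ i, a i ∈ s i} =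
      ((Fintype.piFinset fun i => (hs i).toFinset : Finset (∀ i, α i)) : Set (∀ i, α i)) := by
    ext a
    simp only [Set.mem_setOf_eq, Finset.mem_coe, Fintype.mem_piFinset, Set.Finite.mem_toFinset]
  rw [h1, finsum_mem_coe_finset, ← Finset.prod_univ_sum]
  refine Finset.prod_congr rfl fun i _ => ?_
  rw [finsum_mem_eq_finite_toFinset_sum _ (hs i)]

/-- Comparison of the sum over the joint factorisations with the sum over the points of the model. -/
theorem jcompare {k F : Type} [Field k] [Field F] [Fintype F] [Algebra k F] {ι : Type} [Fintype ι]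
    {f : ι → k[X][X]} {l : ι → ℕ} {c : ∀ i, Fin (l i) → ℕ} {H : k[X][X]} {D : k[X]}
    {A : ∀ i, Fin (l i) → ℕ → k[X][X]} (hf : ∀ i, (f i).Monic)
    (hM : JMd f c H D A) (w : F → ℝ) (ψ : ∀ i, F → (Fin (l i) → F[X]) → ℝ) (h : F → F → ℝ)
    (hw : ∀ t, |w t| ≤ 1) (hψ : ∀ i t a, |ψ i t a| ≤ 1) (hh : ∀ t y, |h t y| ≤ 1)
    (heq : ∀ t y, aeval t D ≠ 0 → ev2 t y H = 0 →
      h t y = w t * ∏ i, ψ i t (mdl (evt (k := k) t) (c i) D (A i) y)) :
    |(∑ t : F, w t * ∏ i, ∑ᶠ a ∈ FacR (evt (k := k) t) (f i) (c i), ψ i t a) -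
      ∑ z ∈ Finset.univ.filter (fun z : F × F => ev2 z.1 z.2 H = 0), h z.1 z.2| ≤
      ((∏ i, (2 ^ (f i).natDegree) ^ (l i) : ℕ) + H.natDegree) * D.natDegree := by
  have h1 : ∑ z ∈ Finset.univ.filter (fun z : F × F => ev2 z.1 z.2 H = 0), h z.1 z.2 =
      ∑ t : F, ∑ y ∈ Finset.univ.filter (fun y : F => ev2 t y H = 0), h t y := by
    rw [Finset.sum_filter, Fintype.sum_prod_type]
    refine Finset.sum_congr rfl fun t _ => ?_
    rw [Finset.sum_filter]
  rw [h1, ← Finset.sum_sub_distrib]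
  set U : ℝ := ((∏ i, (2 ^ (f i).natDegree) ^ (l i) : ℕ) : ℝ) with hU
  have h2 : ∀ t : F, |w t * ∏ i, ∑ᶠ a ∈ FacR (evt (k := k) t) (f i) (c i), ψ i t a -
      ∑ y ∈ Finset.univ.filter (fun y : F => ev2 t y H = 0), h t y| ≤
      if aeval t D = 0 then (U + H.natDegree : ℝ) else 0 := by
    intro t
    have hfc := fun i => Run7.h973.TG.facR_bound (evt (k := k) t) (f i) (hf i) (c i)
    split_ifs with ht
    · have h3 : |w t * ∏ i, ∑ᶠ a ∈ FacR (evt (k := k) t) (f i) (c i), ψ i t a| ≤ U := by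
        rw [abs_mul, Finset.abs_prod]
        have h31 : ∏ i, |∑ᶠ a ∈ FacR (evt (k := k) t) (f i) (c i), ψ i t a| ≤ U := by
          rw [hU]
          push_cast
          refine Finset.prod_le_prod (fun i _ => abs_nonneg _) fun i _ => ?_
          refine (abs_finsum_le (hfc i).1 _ (hψ i t)).trans ?_
          exact_mod_cast (hfc i).2
        calc |w t| * ∏ i, |∑ᶠ a ∈ FacR (evt (k := k) t) (f i) (c i), ψ i t a| ≤ 1 * U :=
              mul_le_mul (hw t) h31 (Finset.prod_nonneg fun i _ => abs_nonneg _) zero_le_one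
          _ = U := one_mul _
      have h4 : |∑ y ∈ Finset.univ.filter (fun y : F => ev2 t y H = 0), h t y| ≤ H.natDegree := by
        calc |∑ y ∈ Finset.univ.filter (fun y : F => ev2 t y H = 0), h t y| ≤
            ∑ y ∈ Finset.univ.filter (fun y : F => ev2 t y H = 0), |h t y| :=
              Finset.abs_sum_le_sum_abs _ _
          _ ≤ ∑ y ∈ Finset.univ.filter (fun y : F => ev2 t y H = 0), (1 : ℝ) :=
              Finset.sum_le_sum fun y _ => hh t y
          _ = ((Finset.univ.filter (fun y : F => ev2 t y H = 0)).card : ℝ) := by simp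
          _ ≤ (H.natDegree : ℝ) := by exact_mod_cast card_y_le hM.pc.monic t
      have h5 := abs_sub (w t * ∏ i, ∑ᶠ a ∈ FacR (evt (k := k) t) (f i) (c i), ψ i t a)
        (∑ y ∈ Finset.univ.filter (fun y : F => ev2 t y H = 0), h t y)
      linarith
    · have h6 : {y : F | eval₂ (evt (k := k) t) y H = 0} =
          ((Finset.univ.filter (fun y : F => ev2 t y H = 0) : Finset F) : Set F) := by
        ext y
        simp only [Set.mem_setOf_eq, Finset.coe_filter, Finset.mem_univ, true_and]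
        exact Iff.rfl
      have h5 : w t * ∏ i, ∑ᶠ a ∈ FacR (evt (k := k) t) (f i) (c i), ψ i t a =
          ∑ y ∈ Finset.univ.filter (fun y : F => ev2 t y H = 0), h t y := by
        rw [prod_finsum (fun i => (hfc i).1) (fun i a => ψ i t a)]
        have h7 := finsum_mem_eq_of_bijOn
          (f := fun y => ∏ i, ψ i t (mdl (evt (k := k) t) (c i) D (A i) y))
          (g := fun a : ∀ i, Fin (l i) → F[X] => ∏ i, ψ i t (a i)) _
          (hM.bij F (evt (k := k) t) ht) fun x _ => rfl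
        rw [← h7, h6, finsum_mem_coe_finset, Finset.mul_sum]
        refine Finset.sum_congr rfl fun y hy => ?_
        rw [Finset.mem_filter] at hy
        exact (heq t y ht hy.2).symm
      rw [h5, sub_self, abs_zero]
  calc _ ≤ ∑ t : F, |w t * ∏ i, ∑ᶠ a ∈ FacR (evt (k := k) t) (f i) (c i), ψ i t a -
        ∑ y ∈ Finset.univ.filter (fun y : F => ev2 t y H = 0), h t y| :=
        Finset.abs_sum_le_sum_abs _ _
    _ ≤ ∑ t : F, (if aeval t D = 0 then (U + H.natDegree : ℝ) else 0) :=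
        Finset.sum_le_sum fun t _ => h2 t
    _ = (Finset.univ.filter fun t : F => aeval t D = 0).card *
          (U + H.natDegree : ℝ) := by
        rw [← Finset.sum_filter, Finset.sum_const, nsmul_eq_mul]
    _ ≤ D.natDegree * (U + H.natDegree : ℝ) := by
        have hU0 : (0 : ℝ) ≤ U + H.natDegree := by positivity
        refine mul_le_mul_of_nonneg_right ?_ hU0
        exact_mod_cast card_zero_le hM.pc.ne
    _ = _ := by ring

/-- The estimates, with the constant `C₀`. -/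
def Est {k : Type} [Field k] {ι : Type} [Fintype ι] (g : ι → ℕ) (f : ι → k[X][X]) (l : ι → ℕ)
    (c : ∀ i, Fin (l i) → ℕ) (C₀ : ℕ) : Prop :=
  (∀ (F : Type) [Field F] [Fintype F] [Algebra k F],
    |(∑ t : F, ∏ i, ((FacR (evt (k := k) t) (f i) (c i)).ncard : ℝ)) - cd F| ≤ C₀ * √(cd F)) ∧
  (∀ b : k[X], Squarefree b → IsCoprime b (dB g f) → 0 < b.natDegree →
    ∀ (F : Type) [Field F] [Fintype F] [Algebra k F],
      |∑ t : F, chi (aeval t b) * ∏ i, ((FacR (evt (k := k) t) (f i) (c i)).ncard : ℝ)| ≤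
        C₀ * (1 + b.natDegree) * √(cd F)) ∧
  ∀ (i : ι) (B : Finset (Fin (l i))), B.Nonempty → Even (∑ a ∈ B, c i a) →
  ∀ (K L : Type) [Field K] [Algebra k[X] K] [IsFractionRing k[X] K]
    [Field L] [Algebra K L] [Algebra k[X] L] [IsScalarTower k[X] K L] (θ : L),
    IsGen (g i) K (f i) θ →
  ∀ (α : L) (z : Fin (2 * g i + 1) → k[X]) (N' : ℕ), α ≠ 0 → IsSquare (Algebra.norm K α) →
    ¬ IsSquare α → Crd (g i) θ z α → (∀ a, (z a).natDegree ≤ N') →
    ∀ (F : Type) [Field F] [Fintype F] [Algebra k F],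
      |∑ t : F, (∑ᶠ a ∈ FacR (evt (k := k) t) (f i) (c i),
        chi (nv (∏ b ∈ B, a b) (zp (evt (k := k) t) z))) *
          ∏ j ∈ (Finset.univ : Finset ι).erase i,
            ((FacR (evt (k := k) t) (f j) (c j)).ncard : ℝ)| ≤
          C₀ * (1 + N') * √(cd F)

theorem est_one (hNSQ : P_JNSQ) (hNSQ2 : P_JNSQ2) {k : Type} [Field k] [Finite k] {ι : Type}
    [Fintype ι] {g N : ι → ℕ} {r : ι → k[X]} {f : ι → k[X][X]}
    (hF : JF g N r f) (hFull : JFull f) (l : ι → ℕ) (c : ∀ i, Fin (l i) → ℕ)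
    (hc : ∀ i a, 1 ≤ c i a) (hs : ∀ i, ∑ a, c i a = 2 * g i + 1) :
    ∃ C₀ : ℕ, Est g f l c C₀ := by
  have hf : ∀ i, (f i).Monic := fun i => (hF.fm i).fam.ht.mon
  obtain ⟨H, D, A, hM⟩ := Run7.h56.JP.T_JMODEL k ι g N r f hF hFull l c hc hs
  obtain ⟨C₁, hC1, hC2⟩ := Run7.h984.TS.double k H D hF.two hM.pc
  choose d₀ E₀ hG using fun (x : Σ i : ι, Finset (Fin (l i))) =>
    G0_bound (c x.1) D (A x.1) x.2 (g x.1)
  choose E hE using fun x : (Σ i : ι, Finset (Fin (l i))) => mod_bound H (d₀ x)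
  set C₂ : ℕ := ((∏ i, (2 ^ (f i).natDegree) ^ (l i)) + H.natDegree) * D.natDegree with hC₂
  set C₃ : ℕ := ∑ x : (Σ i : ι, Finset (Fin (l i))), (1 + E₀ x + E x) with hC₃
  have habs : ∀ (x y c d s : ℝ), |x - y| ≤ c → |y| ≤ d * s → 0 ≤ c → 1 ≤ s → |x| ≤ (c + d) * s := by
    intro x y c d s h1 h2 h3 h4
    have h5 : |x| ≤ |x - y| + |y| := by
      calc |x| = |(x - y) + y| := by ring_nf
        _ ≤ _ := abs_add_le _ _
    nlinarith
  have hfin : ∀ {F : Type} [Field F] [Fintype F] [Algebra k F] (t : F) (i : ι),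
      (FacR (evt (k := k) t) (f i) (c i)).Finite := fun t i =>
    (Run7.h973.TG.facR_bound _ (f i) (hf i) (c i)).1
  refine ⟨C₂ + C₁ * (1 + C₃), ?_, ?_, ?_⟩
  · intro F _ _ _
    have h1 := jcompare hf hM (F := F) (fun _ => 1) (fun _ _ _ => 1) (fun _ _ => 1) (by simp)
      (by simp) (by simp) (by simp)
    have h3 := hC1 F
    have h4 : (∑ t : F, (1 : ℝ) * ∏ i, ∑ᶠ a ∈ FacR (evt (k := k) t) (f i) (c i), (1 : ℝ)) =
        ∑ t : F, ∏ i, ((FacR (evt (k := k) t) (f i) (c i)).ncard : ℝ) := by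
      refine Finset.sum_congr rfl fun t _ => ?_
      rw [one_mul]
      exact Finset.prod_congr rfl fun i _ => (ncard_eq_finsum (hfin t i)).symm
    have h5 : ∑ z ∈ Finset.univ.filter (fun z : F × F => ev2 z.1 z.2 H = 0), (1 : ℝ) =
        ((Finset.univ.filter (fun z : F × F => ev2 z.1 z.2 H = 0)).card : ℝ) := by simp
    rw [h4, h5] at h1
    have h6 : |((∑ t : F, ∏ i, ((FacR (evt (k := k) t) (f i) (c i)).ncard : ℝ)) - cd F) -
        (((Finset.univ.filter (fun z : F × F => ev2 z.1 z.2 H = 0)).card : ℝ) - cd F)| ≤ C₂ := by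
      rw [hC₂]
      push_cast at h1 ⊢
      convert h1 using 2
      ring
    refine (habs _ _ _ _ _ h6 h3 (by positivity) one_le_sqrt_cd).trans ?_
    have : (0 : ℝ) ≤ √(cd F) := Real.sqrt_nonneg _
    push_cast
    have h7 : (0 : ℝ) ≤ C₁ * C₃ := by positivity
    nlinarith
  · intro b hb1 hb2 hb3 F _ _ _
    have h1 := jcompare hf hM (F := F) (fun t => chi (aeval t b)) (fun _ _ _ => 1)
      (fun t y => chi (ev2 t y (C b))) (fun t => abs_chi_le _)
      (by simp) (fun t y => abs_chi_le _) (fun t y _ _ => by rw [ev2_C]; simp)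
    have h3 := hC2 (C b) b.natDegree (by simp) (fun i => by
      rw [coeff_C]; split_ifs <;> simp)
      (fun k' _ _ _ _ => hNSQ2 k ι g N r f hF hFull l c hc hs H D A hM b hb1 hb2 hb3 k') F
    have h4 : (∑ t : F, chi (aeval t b) *
          ∏ i, ∑ᶠ a ∈ FacR (evt (k := k) t) (f i) (c i), (1 : ℝ)) =
        ∑ t : F, chi (aeval t b) * ∏ i, ((FacR (evt (k := k) t) (f i) (c i)).ncard : ℝ) := by
      refine Finset.sum_congr rfl fun t _ => ?_
      congr 1
      exact Finset.prod_congr rfl fun i _ => (ncard_eq_finsum (hfin t i)).symm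
    rw [h4] at h1
    have h6 : |(∑ t : F, chi (aeval t b) *
          ∏ i, ((FacR (evt (k := k) t) (f i) (c i)).ncard : ℝ)) -
        ∑ z ∈ Finset.univ.filter (fun z : F × F => ev2 z.1 z.2 H = 0),
          chi (ev2 z.1 z.2 (C b))| ≤ C₂ := by
      rw [hC₂]
      push_cast at h1 ⊢
      exact h1
    refine (habs _ _ _ _ _ h6 h3 (by positivity) one_le_sqrt_cd).trans ?_
    have h8 : (0 : ℝ) ≤ √(cd F) := Real.sqrt_nonneg _
    refine mul_le_mul_of_nonneg_right ?_ h8
    push_cast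
    have h7 : (0 : ℝ) ≤ C₁ * C₃ := by positivity
    have h9 : (0 : ℝ) ≤ C₂ := by positivity
    have h10 : (0 : ℝ) ≤ (b.natDegree : ℝ) := by positivity
    have h11 := mul_nonneg h9 h10
    have h12 := mul_nonneg h7 h10
    nlinarith
  · intro i B hB hev K L _ _ _ _ _ _ _ θ hgen α z N' hα hsq hns hcrd hz F _ _ _
    set G : k[X][X] := (G0 (c i) D (A i) B z) %ₘ H with hGdef
    obtain ⟨hG1, hG2⟩ := hG ⟨i, B⟩ z N' hz
    have hGev : ∀ (W : Type) [Field W] (φ : k[X] →+* W) (y : W), φ D ≠ 0 → eval₂ φ y H = 0 →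
        eval₂ φ y G = φ D ^ (2 * (B.card * g i)) *
          nv (∏ a ∈ B, mdl φ (c i) D (A i) y a) (zp φ z) := by
      intro W _ φ y hD hy
      rw [hGdef, eval₂_modByMonic_eq_self_of_root hy, G0_eval (c i) D (A i) B z φ hD y]
    set ψ : ∀ j, F → (Fin (l j) → F[X]) → ℝ := Function.update (fun _ _ _ => 1) i
      (fun t a => chi (nv (∏ b ∈ B, a b) (zp (evt (k := k) t) z))) with hψ
    have hψi : ψ i = fun t a => chi (nv (∏ b ∈ B, a b) (zp (evt (k := k) t) z)) := by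
      rw [hψ, Function.update_self]
    have hψj : ∀ j, j ≠ i → ψ j = fun _ _ => 1 := by
      intro j hj
      rw [hψ, Function.update_of_ne hj]
    have h1 := jcompare hf hM (F := F) (fun _ => 1) ψ
      (fun t y => chi (ev2 t y G)) (by simp)
      (fun j t a => by
        by_cases hj : j = i
        · subst hj
          rw [hψi]
          exact abs_chi_le _
        · rw [hψj j hj]
          simp) (fun t y => abs_chi_le _) (fun t y ht hy => by
        have h2 : ev2 t y G = _ := hGev F (evt (k := k) t) y ht hy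
        have ht' : (evt (k := k) t D) ^ (B.card * g i) ≠ 0 := pow_ne_zero _ ht
        rw [one_mul, ← Finset.mul_prod_erase _ _ (Finset.mem_univ i),
          Finset.prod_eq_one (fun j hj => by rw [hψj j (Finset.ne_of_mem_erase hj)]), mul_one, hψi,
          h2, chi_mul, mul_comm 2 (B.card * g i), pow_mul, chi_sq ht', one_mul])
    have hgd : G.natDegree ≤ 2 * H.natDegree := by
      have h2 := natDegree_modByMonic_le (G0 (c i) D (A i) B z) hM.pc.monic
      rw [← hGdef] at h2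
      omega
    have hgc : ∀ j, (G.coeff j).natDegree ≤ C₃ * (1 + N') := by
      intro j
      have h2 := hE ⟨i, B⟩ (G0 (c i) D (A i) B z) (E₀ ⟨i, B⟩ * (1 + N')) hG1 hG2 j
      refine h2.trans ?_
      have h5 : 1 + E₀ ⟨i, B⟩ + E ⟨i, B⟩ ≤ C₃ :=
        Finset.single_le_sum (f := fun x : (Σ i : ι, Finset (Fin (l i))) => 1 + E₀ x + E x)
          (fun _ _ => Nat.zero_le _) (Finset.mem_univ (⟨i, B⟩ : Σ i : ι, Finset (Fin (l i))))
      calc E₀ ⟨i, B⟩ * (1 + N') + E ⟨i, B⟩ ≤ (1 + E₀ ⟨i, B⟩ + E ⟨i, B⟩) * (1 + N') := by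
            nlinarith [Nat.zero_le (E ⟨i, B⟩ * N')]
        _ ≤ _ := Nat.mul_le_mul_right _ h5
    have h3 := hC2 G (C₃ * (1 + N')) hgd hgc
      (fun k' _ _ _ _ => hNSQ k ι g N r f hF hFull l c hc hs H D A hM i B hB hev K L θ
        hgen α z hα hsq hns hcrd G (B.card * g i) hGev k') F
    have h4 : (∑ t : F, (1 : ℝ) * ∏ j, ∑ᶠ a ∈ FacR (evt (k := k) t) (f j) (c j), ψ j t a) =
        ∑ t : F, (∑ᶠ a ∈ FacR (evt (k := k) t) (f i) (c i),
          chi (nv (∏ b ∈ B, a b) (zp (evt (k := k) t) z))) *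
          ∏ j ∈ (Finset.univ : Finset ι).erase i,
            ((FacR (evt (k := k) t) (f j) (c j)).ncard : ℝ) := by
      refine Finset.sum_congr rfl fun t _ => ?_
      rw [one_mul, ← Finset.mul_prod_erase _ _ (Finset.mem_univ i), hψi]
      congr 1
      refine Finset.prod_congr rfl fun j hj => ?_
      rw [hψj j (Finset.ne_of_mem_erase hj), ncard_eq_finsum (hfin t j)]
    rw [h4] at h1
    have h6 : |(∑ t : F, (∑ᶠ a ∈ FacR (evt (k := k) t) (f i) (c i),
          chi (nv (∏ b ∈ B, a b) (zp (evt (k := k) t) z))) *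
          ∏ j ∈ (Finset.univ : Finset ι).erase i,
            ((FacR (evt (k := k) t) (f j) (c j)).ncard : ℝ)) -
        ∑ z' ∈ Finset.univ.filter (fun z : F × F => ev2 z.1 z.2 H = 0),
          chi (ev2 z'.1 z'.2 G)| ≤ C₂ := by
      rw [hC₂]
      push_cast at h1 ⊢
      exact h1
    refine (habs _ _ _ _ _ h6 h3 (by positivity) one_le_sqrt_cd).trans ?_
    have h8 : (0 : ℝ) ≤ √(cd F) := Real.sqrt_nonneg _
    refine mul_le_mul_of_nonneg_right ?_ h8
    push_cast
    have h9 : (0 : ℝ) ≤ C₂ := by positivity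
    have h10 : (0 : ℝ) ≤ (C₁ : ℝ) := by positivity
    have h11 : (0 : ℝ) ≤ (N' : ℝ) := by positivity
    have h12 := mul_nonneg h9 h11
    have h13 := mul_nonneg h10 h11
    nlinarith

theorem Est.mono {k : Type} [Field k] {ι : Type} [Fintype ι] {g : ι → ℕ} {f : ι → k[X][X]}
    {l : ι → ℕ} {c : ∀ i, Fin (l i) → ℕ} {C₀ C₁ : ℕ}
    (h : Est g f l c C₀) (hC : C₀ ≤ C₁) : Est g f l c C₁ := by
  have hC' : (C₀ : ℝ) ≤ C₁ := by exact_mod_cast hC
  obtain ⟨h1, h2, h3⟩ := h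
  refine ⟨?_, ?_, ?_⟩
  · intro F _ _ _
    refine (h1 F).trans ?_
    gcongr
  · intro b hb1 hb2 hb3 F _ _ _
    refine (h2 b hb1 hb2 hb3 F).trans ?_
    gcongr
  · intro i B hB hev K L _ _ _ _ _ _ _ θ hgen α z N' hα hsq hns hcrd hz F _ _ _
    refine (h3 i B hB hev K L θ hgen α z N' hα hsq hns hcrd hz F).trans ?_
    gcongr

/-- **JW** -/
theorem T_JW (hNSQ : P_JNSQ) (hNSQ2 : P_JNSQ2) : P_JW := by
  intro k _ _ ι _ g N r f hF hFull
  have h : ∀ (p : ∀ i : ι, Σ m : ℕ, (Fin m → ℕ)), ∃ C₀ : ℕ, (∀ i a, 1 ≤ (p i).2 a) →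
      (∀ i, ∑ a, (p i).2 a = 2 * g i + 1) →
      Est g f (fun i => (p i).1) (fun i => (p i).2) C₀ := by
    intro p
    by_cases h1 : (∀ i a, 1 ≤ (p i).2 a) ∧ ∀ i, ∑ a, (p i).2 a = 2 * g i + 1
    · obtain ⟨C₀, hC₀⟩ := est_one hNSQ hNSQ2 hF hFull (fun i => (p i).1) (fun i => (p i).2)
        h1.1 h1.2
      exact ⟨C₀, fun _ _ => hC₀⟩
    · exact ⟨0, fun h2 h3 => absurd ⟨h2, h3⟩ h1⟩
  choose C₀ hC₀ using h
  set S : ∀ i : ι, Finset (Σ m : ℕ, (Fin m → ℕ)) := fun i =>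
    (Finset.range (2 * g i + 2)).sigma fun m => Run7.h784.TG.cmp (2 * g i + 1) m with hS
  refine ⟨∑ p ∈ Fintype.piFinset S, C₀ p, ?_⟩
  intro l c hc hs
  set p : ∀ i : ι, Σ m : ℕ, (Fin m → ℕ) := fun i => ⟨l i, c i⟩ with hp
  have hmem : p ∈ Fintype.piFinset S := by
    rw [Fintype.mem_piFinset]
    intro i
    have hl : l i ≤ 2 * g i + 1 := by
      rw [← hs i]
      calc l i = ∑ a : Fin (l i), 1 := by simp
        _ ≤ _ := Finset.sum_le_sum fun a _ => hc i a
    rw [hS]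
    simp only
    rw [Finset.mem_sigma]
    refine ⟨Finset.mem_range.2 (by show l i < _; omega), ?_⟩
    show c i ∈ Run7.h784.TG.cmp (2 * g i + 1) (l i)
    unfold Run7.h784.TG.cmp
    rw [Finset.mem_filter, Fintype.mem_piFinset]
    refine ⟨fun a => ?_, hs i⟩
    rw [Finset.mem_Icc]
    refine ⟨hc i a, ?_⟩
    rw [← hs i]
    exact Finset.single_le_sum (f := c i) (fun _ _ => Nat.zero_le _) (Finset.mem_univ a)
  have hle : C₀ p ≤ ∑ p ∈ Fintype.piFinset S, C₀ p :=
    Finset.single_le_sum (f := C₀) (fun _ _ => Nat.zero_le _) hmem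
  exact (hC₀ p hc hs).mono hle

end Run7.h518.JP
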